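import Pool.Agent.Y605.BT.Num

/-!
# Five pages are always enough; the hardness theorem
-/

set_option autoImplicit false

namespace Pool.Agent.Y605.BT

open Pool.Agent.TH656 Pool.Agent.TH656.Bt
open Pool.Agent.Y605.BX (NearPaths pathwidth IsPathDecomposition)

/-- positions -/
def pos5 (a : List ℕ) (b B : ℕ) (v : V4) : ℤ :=
  if v.2.1 = 0 then - (v.1 : ℤ) - 1 else (num a b B v : ℤ)

/-- pages -/
def pg5 (v w : V4) : ℕ :=
  if v.2.1 = 0 ∧ w.2.1 = 0 then 0 else if v.2.1 = 0 then min v.1 3 else
    if w.2.1 = 0 then min w.1 3 else 4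

theorem pg5_lt (v w : V4) : pg5 v w < 5 := by
  unfold pg5
  split_ifs
  · norm_num
  · have := min_le_right v.1 3
    omega
  · have := min_le_right w.1 3
    omega
  · norm_num

theorem pg5_symm (v w : V4) : pg5 v w = pg5 w v := by
  unfold pg5
  by_cases h1 : v.2.1 = 0 <;> by_cases h2 : w.2.1 = 0 <;> simp [h1, h2]

section

variable {a : List ℕ} {b B : ℕ}

theorem off_z {v : V4} (h : v.2.1 = 1) : off a b B v = 0 := by
  unfold off
  rw [if_pos h]

theorem pos5_inj {v w : V4} (hv : v ∈ vl a b B) (hw : w ∈ vl a b B)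
    (h : pos5 a b B v = pos5 a b B w) : v = w := by
  unfold pos5 at h
  by_cases h0 : v.2.1 = 0
  · by_cases h0' : w.2.1 = 0
    · rw [if_pos h0, if_pos h0'] at h
      exact Prod.ext (by omega) ((kind_zero hv h0).2.trans (kind_zero hw h0').2.symm)
    · rw [if_pos h0, if_neg h0'] at h
      omega
  · by_cases h0' : w.2.1 = 0
    · rw [if_neg h0, if_pos h0'] at h
      omega
    · rw [if_neg h0, if_neg h0'] at h
      have h2 : num a b B v = num a b B w := by exact_mod_cast h
      obtain ⟨e1, e2⟩ := euc (off_lt hv h0) (off_lt hw h0') h2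
      by_cases h1 : v.2.1 = 1
      · by_cases h1' : w.2.1 = 1
        · exact Prod.ext e1 ((kind_one hv h1).2.trans (kind_one hw h1').2.symm)
        · rw [off_z h1, off_path (by omega)] at e2
          omega
      · by_cases h1' : w.2.1 = 1
        · rw [off_z h1', off_path (by omega)] at e2
          omega
        · exact num_inj hv (by omega) hw (by omega) h2

/-- an edge of a copy ends at `z`, the first vertex of the copy, or joins consecutive vertices -/
theorem copy_edge {v w : V4} (hv : v ∈ vl a b B) (hw : w ∈ vl a b B) (h0v : v.2.1 ≠ 0)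
    (h0w : w.2.1 ≠ 0) (h : Adj b B v w) (hlt : pos5 a b B v < pos5 a b B w) :
    (v.2.1 = 1 ∧ v.1 = w.1) ∨ pos5 a b B w = pos5 a b B v + 1 := by
  have hs := same_copy hv hw h0v h0w h
  unfold pos5 at hlt ⊢
  rw [if_neg h0v, if_neg h0w] at hlt ⊢
  by_cases h1 : v.2.1 = 1
  · exact Or.inl ⟨h1, hs⟩
  · by_cases h1' : w.2.1 = 1
    · exfalso
      unfold num at hlt
      rw [off_z h1', hs] at hlt
      push_cast at hlt
      omega
    · right
      rcases num_adj hv (by omega) hw (by omega) h with h2 | h2
      · exfalso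
        omega
      · omega

theorem cross5 {v w x y : V4} (hv : v ∈ vl a b B) (hw : w ∈ vl a b B) (hx : x ∈ vl a b B)
    (hy : y ∈ vl a b B) (h : Adj b B v w) (h' : Adj b B x y)
    (h1 : pos5 a b B v < pos5 a b B x) (h2 : pos5 a b B x < pos5 a b B w)
    (h3 : pos5 a b B w < pos5 a b B y) : pg5 v w ≠ pg5 x y := by
  intro hpg
  have hh : ∀ {v w : V4}, v ∈ vl a b B → w ∈ vl a b B → Adj b B v w → ¬ (v.2.1 = 0 ∧ w.2.1 = 0) := by
    rintro v w hv hw h ⟨e1, e2⟩
    obtain ⟨c, v⟩ := v
    obtain ⟨c', w⟩ := w
    have e3 := (kind_zero hv e1).2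
    have e4 := (kind_zero hw e2).2
    dsimp only at e3 e4
    subst e3; subst e4
    exact adj_hh h
  have n1 := hh hv hw h
  have n2 := hh hx hy h'
  -- two different vertices are not the same hub
  have hub : ∀ {v w : V4}, v ∈ vl a b B → w ∈ vl a b B → v.2.1 = 0 → w.2.1 = 0 →
      min v.1 3 = min w.1 3 → pos5 a b B v = pos5 a b B w := by
    intro v w hv hw e1 e2 e3
    have e4 := (kind_zero hv e1).1
    have e5 := (kind_zero hw e2).1
    unfold pos5
    rw [if_pos e1, if_pos e2]
    omega
  unfold pg5 at hpg
  rw [if_neg n1, if_neg n2] at hpg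
  by_cases v0 : v.2.1 = 0
  · rw [if_pos v0] at hpg
    by_cases x0 : x.2.1 = 0
    · rw [if_pos x0] at hpg
      have := hub hv hx v0 x0 hpg
      omega
    · rw [if_neg x0] at hpg
      by_cases y0 : y.2.1 = 0
      · rw [if_pos y0] at hpg
        have := hub hv hy v0 y0 hpg
        omega
      · rw [if_neg y0] at hpg
        have := min_le_right v.1 3
        omega
  · rw [if_neg v0] at hpg
    by_cases w0 : w.2.1 = 0
    · rw [if_pos w0] at hpg
      by_cases x0 : x.2.1 = 0
      · rw [if_pos x0] at hpg
        have := hub hw hx w0 x0 hpg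
        omega
      · rw [if_neg x0] at hpg
        by_cases y0 : y.2.1 = 0
        · rw [if_pos y0] at hpg
          have := hub hw hy w0 y0 hpg
          omega
        · rw [if_neg y0] at hpg
          have := min_le_right w.1 3
          omega
    · rw [if_neg w0] at hpg
      by_cases x0 : x.2.1 = 0
      · rw [if_pos x0] at hpg
        have := min_le_right x.1 3
        omega
      · rw [if_neg x0] at hpg
        by_cases y0 : y.2.1 = 0
        · rw [if_pos y0] at hpg
          have := min_le_right y.1 3
          omega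
        · rcases copy_edge hv hw v0 w0 h (by omega) with ⟨v1, vw⟩ | e
          · rcases copy_edge hx hy x0 y0 h' (by omega) with ⟨x1, xy⟩ | e
            · unfold pos5 at h1 h2
              rw [if_neg v0, if_neg x0] at h1
              rw [if_neg w0, if_neg x0] at h2
              have g1 : num a b B v < num a b B x := by exact_mod_cast h1
              have g2 : num a b B x < num a b B w := by exact_mod_cast h2
              have o1 := off_lt hw w0
              unfold num at g1 g2
              rw [off_z v1, off_z x1] at g1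
              rw [off_z x1, ← vw] at g2
              have g3 : v.1 < x.1 := by
                by_contra hc
                have := Nat.mul_le_mul_right (DD a b B) (show x.1 ≤ v.1 by omega)
                omega
              have := Nat.mul_le_mul_right (DD a b B) (show v.1 + 1 ≤ x.1 from g3)
              rw [Nat.succ_mul] at this
              omega
            · omega
          · omega

theorem five (a : List ℕ) (b B : ℕ) : bookThickness (gr a b B).graph ≤ 5 := by
  have key : bookThickness (V := Fin (vl a b B).length) (lgr (vl a b B) (ad b B)).graph ≤ 5 := by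
    refine (bookThickness_le_iff (V := Fin (vl a b B).length)).2
      ((hasBookEmbedding_iff (V := Fin (vl a b B).length) (by norm_num)).2 ?_)
    refine ⟨fun i => pos5 a b B ((vl a b B).get i),
      fun i j => pg5 ((vl a b B).get i) ((vl a b B).get j), ?_, ?_, ?_, ?_⟩
    · intro i j h
      exact get_inj (pos5_inj (List.get_mem _ _) (List.get_mem _ _) h)
    · exact fun i j => pg5_lt _ _
    · exact fun i j => pg5_symm _ _
    · intro v w x y h h' h1 h2 h3
      exact cross5 (List.get_mem _ _) (List.get_mem _ _) (List.get_mem _ _) (List.get_mem _ _)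
        ((lgr_adj (l := vl a b B) (ad := ad b B) _ _).1 h).2
        ((lgr_adj (l := vl a b B) (ad := ad b B) _ _).1 h').2 h1 h2 h3
  exact key

end

open Pool.Agent.NPC Pool.Agent.NPC.H632 Pool.Agent.H557R2.Tri Pool.Agent.H692R2
open Pool.Agent.H43R3.SN Pool.Agent.NPC.SNP
open Pool.Agent.TH656.Bx (treewidth)

/-- The properties of all instances. -/
theorem red_all (I : List (ℕ × ℕ × ℕ) × ℕ) : NearPaths (Bt.red I).graph 8197 ∧
    pathwidth (Bt.red I).graph ≤ 6 ∧ treewidth (Bt.red I).graph ≤ 6 ∧
    bookThickness (Bt.red I).graph ≤ 5 := by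
  have key : ∀ (a : List ℕ) (b B : ℕ), NearPaths (Bt.gr a b B).graph 8197 ∧
      pathwidth (Bt.gr a b B).graph ≤ 6 ∧ bookThickness (Bt.gr a b B).graph ≤ 5 := fun a b B =>
    ⟨near a b B, pw a b B, five a b B⟩
  have h := Bt.red_tw I
  by_cases ht : tst I
  · have hr : Bt.red I = Bt.gr (sizes (clip I)) (bb (clip I)) (BB (clip I)) := by
      unfold Bt.red
      rw [if_pos ht]
    rw [hr] at h ⊢
    obtain ⟨h1, h2, h3⟩ := key (sizes (clip I)) (bb (clip I)) (BB (clip I))
    exact ⟨h1, h2, h, h3⟩
  · have hr : Bt.red I = Bt.gr [2] 1 1 := by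
      unfold Bt.red
      rw [if_neg ht]
    rw [hr] at h ⊢
    obtain ⟨h1, h2, h3⟩ := key [2] 1 1
    exact ⟨h1, h2, h, h3⟩

/-- The hardness theorem. -/
theorem hard5 : HardPr (fun G : FinGraph => NearPaths G.graph 8197 ∧
      pathwidth G.graph ≤ 6 ∧ treewidth G.graph ≤ 6 ∧ bookThickness G.graph ≤ 5)
    (fun G => bookThickness G.graph ≤ 4) :=
  hardPr_X3Cr.trans Bt.poly_red (fun I _ => red_all I) Bt.red_correct

end Pool.Agent.Y605.BT
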