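import Pool.Agent.TH656.Bt.Red
import Pool.Agent.Y605.BX.Near

/-!
# A numbering of the vertices, nearness to disjoint unions of paths, pathwidth
-/

set_option autoImplicit false

namespace Pool.Agent.Y605.BT

open Pool.Agent.TH656 Pool.Agent.TH656.Bt
open Pool.Agent.Y605.BX (NearPaths pathwidth IsPathDecomposition)

theorem euc {D x y p q : ℕ} (hp : p < D) (hq : q < D) (h : x * D + p = y * D + q) :
    x = y ∧ p = q := by
  rcases lt_trichotomy x y with hxy | hxy | hxy
  · have := Nat.mul_le_mul_right D (show x + 1 ≤ y from hxy)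
    rw [Nat.succ_mul] at this
    omega
  · subst hxy
    omega
  · have := Nat.mul_le_mul_right D (show y + 1 ≤ x from hxy)
    rw [Nat.succ_mul] at this
    omega

theorem getD_le (a : List ℕ) (i : ℕ) : a.getD i 0 ≤ a.sum := by
  by_cases h : i < a.length
  · rw [List.getD_eq_getElem _ _ h]
    exact List.le_sum_of_mem (List.getElem_mem h)
  · rw [List.getD_eq_default _ _ (by omega)]
    exact Nat.zero_le _

/-- the number of paths of a kind in a copy is smaller -/
def LL (a : List ℕ) : ℕ := a.length + 1

/-- the paths are shorter -/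
def WW (a : List ℕ) (b B : ℕ) : ℕ := b * (10 * B + 3) + 10 * a.sum + 3

/-- the copies are smaller -/
def DD (a : List ℕ) (b B : ℕ) : ℕ := 2 * LL a * WW a b B + 1

/-- the number of the path of a vertex in its copy -/
def idx (a : List ℕ) (v : V4) : ℕ := (v.2.1 - 2) * LL a + (if v.2.1 = 3 then v.2.2.1 else 0)

/-- the number of a vertex in its copy -/
def off (a : List ℕ) (b B : ℕ) (v : V4) : ℕ :=
  if v.2.1 = 1 then 0 else 1 + (idx a v * WW a b B + ppos v)

/-- the number of a vertex -/
def num (a : List ℕ) (b B : ℕ) (v : V4) : ℕ := v.1 * DD a b B + off a b B v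

section

variable {a : List ℕ} {b B : ℕ}

theorem path_cases {v : V4} (hv : v ∈ vl a b B) (h2 : 2 ≤ v.2.1) :
    (v.2.1 = 2 ∧ v.2.2.1 ≤ b * (10 * B + 3) ∧ v.2.2.2 = 0) ∨
    (v.2.1 = 3 ∧ v.2.2.1 < a.length ∧ v.2.2.2 ≤ 10 * a.getD v.2.2.1 0) := by
  obtain ⟨m, hz⟩ := mem_path hv h2
  rcases m with h | h | h
  · exact absurd h hz
  · exact Or.inl h
  · exact Or.inr h

theorem ppos_lt {v : V4} (hv : v ∈ vl a b B) (h2 : 2 ≤ v.2.1) : ppos v + 1 < WW a b B := by
  rcases path_cases hv h2 with ⟨h3, h4, h5⟩ | ⟨h3, h4, h5⟩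
  · unfold ppos WW
    rw [if_pos h3]
    omega
  · unfold ppos WW
    rw [if_neg (by omega)]
    have := getD_le a v.2.2.1
    omega

theorem idx_lt {v : V4} (hv : v ∈ vl a b B) (h2 : 2 ≤ v.2.1) : idx a v < 2 * LL a := by
  rcases path_cases hv h2 with ⟨h3, h4, h5⟩ | ⟨h3, h4, h5⟩
  · unfold idx LL
    rw [h3, if_neg (by omega)]
    omega
  · unfold idx LL
    rw [h3, if_pos rfl]
    omega

theorem off_path {v : V4} (h2 : 2 ≤ v.2.1) :
    off a b B v = 1 + (idx a v * WW a b B + ppos v) := by
  unfold off
  rw [if_neg (by omega)]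

theorem off_lt {v : V4} (hv : v ∈ vl a b B) (h1 : v.2.1 ≠ 0) : off a b B v < DD a b B := by
  by_cases h : v.2.1 = 1
  · unfold off DD
    rw [if_pos h]
    omega
  · have h2 : 2 ≤ v.2.1 := by omega
    rw [off_path h2]
    have h3 := ppos_lt hv h2
    have h4 := Nat.mul_le_mul_right (WW a b B) (show idx a v + 1 ≤ 2 * LL a from idx_lt hv h2)
    rw [Nat.succ_mul] at h4
    unfold DD
    omega

theorem idx_inj {v w : V4} (hv : v ∈ vl a b B) (h2v : 2 ≤ v.2.1) (hw : w ∈ vl a b B)
    (h2w : 2 ≤ w.2.1) (h : idx a v = idx a w) :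
    v.2.1 = w.2.1 ∧ (v.2.1 = 3 → v.2.2.1 = w.2.2.1) := by
  rcases path_cases hv h2v with ⟨h3, h4, h5⟩ | ⟨h3, h4, h5⟩ <;>
    rcases path_cases hw h2w with ⟨h3', h4', h5'⟩ | ⟨h3', h4', h5'⟩ <;>
    (unfold idx LL at h; rw [h3, h3'] at h ⊢; simp at h ⊢; try omega)

theorem num_inj {v w : V4} (hv : v ∈ vl a b B) (h2v : 2 ≤ v.2.1) (hw : w ∈ vl a b B)
    (h2w : 2 ≤ w.2.1) (h : num a b B v = num a b B w) : v = w := by
  obtain ⟨h1, h2⟩ := euc (off_lt hv (by omega)) (off_lt hw (by omega)) h
  rw [off_path h2v, off_path h2w] at h2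
  obtain ⟨h3, h4⟩ := euc (D := WW a b B) (by have := ppos_lt hv h2v; omega)
    (by have := ppos_lt hw h2w; omega) (Nat.add_left_cancel h2)
  obtain ⟨h5, h6⟩ := idx_inj hv h2v hw h2w h3
  exact path_inj hv hw h2v h2w h1 h5 h6 h4

theorem num_adj {v w : V4} (hv : v ∈ vl a b B) (h2v : 2 ≤ v.2.1) (hw : w ∈ vl a b B)
    (h2w : 2 ≤ w.2.1) (h : Adj b B v w) :
    num a b B v = num a b B w + 1 ∨ num a b B w = num a b B v + 1 := by
  obtain ⟨h1, h3, h4, h5⟩ := path_adj hv hw h2v h2w h
  have h6 : idx a v = idx a w := by
    unfold idx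
    rw [← h3]
    split_ifs with h7
    · rw [h4 h7]
    · rfl
  unfold num
  rw [off_path h2v, off_path h2w, h1, h6]
  omega

theorem num_div {v : V4} (hv : v ∈ vl a b B) (h1 : v.2.1 ≠ 0) :
    num a b B v / DD a b B = v.1 := by
  unfold num
  have := off_lt hv h1
  rw [add_comm, Nat.add_mul_div_right _ _ (by unfold DD; omega), Nat.div_eq_of_lt this, zero_add]

theorem num_lt {v : V4} (hv : v ∈ vl a b B) (h1 : v.2.1 ≠ 0) :
    num a b B v < KK * DD a b B := by
  have h2 : v.1 < KK := by
    rcases mem_vl.1 hv with h | h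
    · rw [h.2] at h1
      exact absurd rfl h1
    · exact h.1
  have h3 := off_lt hv h1
  have h4 := Nat.mul_le_mul_right (DD a b B) (show v.1 + 1 ≤ KK from h2)
  rw [Nat.succ_mul] at h4
  unfold num
  omega

theorem kind_one {v : V4} (hv : v ∈ vl a b B) (h1 : v.2.1 = 1) : v.1 < KK ∧ v.2 = z := by
  rcases mem_vl.1 hv with h | h
  · rw [h.2] at h1
    simp at h1
  · refine ⟨h.1, ?_⟩
    rcases h.2 with h3 | h3 | h3
    · exact h3
    · have := h3.1
      omega
    · have := h3.1
      omega

theorem kind_zero {v : V4} (hv : v ∈ vl a b B) (h1 : v.2.1 = 0) : v.1 < 4 ∧ v.2 = (0, 0, 0) := by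
  rcases mem_vl.1 hv with h | h
  · exact h
  · have := M_kind h.2
    omega

/-- the hubs and the vertices `z` -/
def spec : List V4 :=
  (List.range 4).map (fun c => ((c, 0, 0, 0) : V4)) ++ (List.range KK).map (fun κ => ((κ, z) : V4))

theorem mem_spec {v : V4} (hv : v ∈ vl a b B) (h : v.2.1 ≤ 1) : v ∈ spec := by
  unfold spec
  rw [List.mem_append]
  obtain ⟨κ, v⟩ := v
  by_cases h1 : v.1 = 1
  · right
    obtain ⟨h2, h3⟩ := kind_one hv h1
    rw [List.mem_map]
    exact ⟨κ, List.mem_range.2 h2, by dsimp only at h3; rw [h3]⟩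
  · left
    obtain ⟨h2, h3⟩ := kind_zero hv (by dsimp only at h ⊢; omega)
    rw [List.mem_map]
    exact ⟨κ, List.mem_range.2 h2, by dsimp only at h3; rw [h3]⟩

theorem get_inj : Function.Injective (fun i : Fin (vl a b B).length => (vl a b B).get i) :=
  fun _ _ h => (List.Nodup.get_inj_iff (nodup_vl a b B)).1 h

theorem near (a : List ℕ) (b B : ℕ) : NearPaths (gr a b B).graph 8197 := by
  classical
  have key : NearPaths (V := Fin (vl a b B).length) (lgr (vl a b B) (ad b B)).graph 8197 := by
    refine ⟨Finset.univ.filter (fun i => ((vl a b B).get i).2.1 ≤ 1),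
      fun i => num a b B ((vl a b B).get i), ?_, ?_, ?_⟩
    · have h1 : (Finset.univ.filter (fun i => ((vl a b B).get i).2.1 ≤ 1)).card ≤
          spec.toFinset.card := by
        refine Finset.card_le_card_of_injOn (fun i => (vl a b B).get i) ?_ ?_
        · intro i hi
          rw [Finset.mem_coe, Finset.mem_filter] at hi
          rw [Finset.mem_coe, List.mem_toFinset]
          exact mem_spec (List.get_mem _ _) hi.2
        · intro i _ j _ h
          exact get_inj h
      have h2 := spec.toFinset_card_le
      have h3 : spec.length = 8197 := by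
        unfold spec
        rw [List.length_append, List.length_map, List.length_map, List.length_range,
          List.length_range, KK_eq]
      omega
    · intro u v hu hv huv
      rw [Finset.mem_filter, not_and] at hu hv
      have hu' := hu (Finset.mem_univ _)
      have hv' := hv (Finset.mem_univ _)
      have hu2 : 2 ≤ ((vl a b B).get u).2.1 := by omega
      have hv2 : 2 ≤ ((vl a b B).get v).2.1 := by omega
      exact get_inj (num_inj (List.get_mem _ _) hu2 (List.get_mem _ _) hv2 huv)
    · intro u v hu hv huv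
      rw [Finset.mem_filter, not_and] at hu hv
      have hu' := hu (Finset.mem_univ _)
      have hv' := hv (Finset.mem_univ _)
      exact num_adj (List.get_mem _ _) (by omega) (List.get_mem _ _) (by omega)
        ((lgr_adj (l := vl a b B) (ad := ad b B) u v).1 huv).2
  exact key

/-- the bags -/
def inBag (a : List ℕ) (b B i : ℕ) (v : V4) : Prop :=
  v.2.1 = 0 ∨ (v.2.1 = 1 ∧ v.1 = i / DD a b B) ∨
    (2 ≤ v.2.1 ∧ (num a b B v = i ∨ num a b B v = i + 1))

theorem pw (a : List ℕ) (b B : ℕ) : pathwidth (gr a b B).graph ≤ 6 := by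
  classical
  have key : pathwidth (V := Fin (vl a b B).length) (lgr (vl a b B) (ad b B)).graph ≤ 6 := by
    apply Nat.sInf_le
    refine ⟨KK * DD a b B, fun i => Finset.univ.filter (fun u => inBag a b B i ((vl a b B).get u)),
      ⟨?_, ?_, ?_⟩, ?_⟩
    · intro v
      have hv := List.get_mem (vl a b B) v
      have hpos : 0 < KK * DD a b B := by
        rw [KK_eq]
        unfold DD
        omega
      simp only [Finset.mem_filter, Finset.mem_univ, true_and]
      by_cases h0 : ((vl a b B).get v).2.1 = 0
      · exact ⟨0, hpos, Or.inl h0⟩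
      · refine ⟨num a b B ((vl a b B).get v), num_lt hv h0, ?_⟩
        by_cases h1 : ((vl a b B).get v).2.1 = 1
        · exact Or.inr (Or.inl ⟨h1, (num_div hv h0).symm⟩)
        · exact Or.inr (Or.inr ⟨by omega, Or.inl rfl⟩)
    · intro u v huv
      have hadj := ((lgr_adj (l := vl a b B) (ad := ad b B) u v).1 huv).2
      have hu := List.get_mem (vl a b B) u
      have hv := List.get_mem (vl a b B) v
      have hpos : 0 < KK * DD a b B := by
        rw [KK_eq]
        unfold DD
        omega
      simp only [Finset.mem_filter, Finset.mem_univ, true_and]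
      generalize (vl a b B).get u = x at *
      generalize (vl a b B).get v = y at *
      have self : ∀ x ∈ vl a b B, x.2.1 ≠ 0 → inBag a b B (num a b B x) x := by
        intro x hx h0
        by_cases h1 : x.2.1 = 1
        · exact Or.inr (Or.inl ⟨h1, (num_div hx h0).symm⟩)
        · exact Or.inr (Or.inr ⟨by omega, Or.inl rfl⟩)
      by_cases hx0 : x.2.1 = 0
      · by_cases hy0 : y.2.1 = 0
        · exact ⟨0, hpos, Or.inl hx0, Or.inl hy0⟩
        · exact ⟨_, num_lt hv hy0, Or.inl hx0, self y hv hy0⟩
      · by_cases hy0 : y.2.1 = 0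
        · exact ⟨_, num_lt hu hx0, self x hu hx0, Or.inl hy0⟩
        · have hxy : x.1 = y.1 := same_copy hu hv hx0 hy0 hadj
          by_cases hx1 : x.2.1 = 1
          · exact ⟨_, num_lt hv hy0, Or.inr (Or.inl ⟨hx1, by rw [num_div hv hy0, hxy]⟩),
              self y hv hy0⟩
          · by_cases hy1 : y.2.1 = 1
            · exact ⟨_, num_lt hu hx0, self x hu hx0,
                Or.inr (Or.inl ⟨hy1, by rw [num_div hu hx0, hxy]⟩)⟩
            · rcases num_adj hu (by omega) hv (by omega) hadj with h | h
              · exact ⟨_, num_lt hv hy0, Or.inr (Or.inr ⟨by omega, Or.inr h⟩), self y hv hy0⟩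
              · exact ⟨_, num_lt hu hx0, self x hu hx0, Or.inr (Or.inr ⟨by omega, Or.inr h⟩)⟩
    · intro i j k hij hjk _ v hi hk
      simp only [Finset.mem_filter, Finset.mem_univ, true_and] at hi hk ⊢
      rcases hi with hi | hi | hi
      · exact Or.inl hi
      · rcases hk with hk | hk | hk
        · exact Or.inl hk
        · refine Or.inr (Or.inl ⟨hi.1, ?_⟩)
          have h1 : i / DD a b B ≤ j / DD a b B := Nat.div_le_div_right hij
          have h2 : j / DD a b B ≤ k / DD a b B := Nat.div_le_div_right hjk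
          omega
        · have := hi.1
          have := hk.1
          omega
      · rcases hk with hk | hk | hk
        · exact Or.inl hk
        · have := hi.1
          have := hk.1
          omega
        · refine Or.inr (Or.inr ⟨hi.1, ?_⟩)
          have := hi.2
          have := hk.2
          omega
    · intro i _
      have hsub : (Finset.univ.filter (fun u => inBag a b B i ((vl a b B).get u))) ⊆
          (Finset.univ.filter (fun u => ((vl a b B).get u).2.1 = 0)) ∪
          ((Finset.univ.filter (fun u => ((vl a b B).get u).2.1 = 1 ∧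
            ((vl a b B).get u).1 = i / DD a b B)) ∪
          (Finset.univ.filter (fun u => 2 ≤ ((vl a b B).get u).2.1 ∧
            (num a b B ((vl a b B).get u) = i ∨ num a b B ((vl a b B).get u) = i + 1)))) := by
        intro u hu
        simp only [Finset.mem_filter, Finset.mem_univ, true_and, Finset.mem_union] at hu ⊢
        exact hu
      refine (Finset.card_le_card hsub).trans ((Finset.card_union_le _ _).trans ?_)
      have c0 : (Finset.univ.filter (fun u => ((vl a b B).get u).2.1 = 0)).card ≤ 4 := by
        refine (Finset.card_le_card_of_injOn (t := Finset.range 4)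
          (fun u => ((vl a b B).get u).1) ?_ ?_).trans (by simp)
        · intro u hu
          rw [Finset.mem_coe, Finset.mem_filter] at hu
          rw [Finset.mem_coe, Finset.mem_range]
          exact (kind_zero (List.get_mem _ _) hu.2).1
        · intro u hu v hv huv
          rw [Finset.mem_coe, Finset.mem_filter] at hu hv
          have e1 := (kind_zero (List.get_mem _ _) hu.2).2
          have e2 := (kind_zero (List.get_mem _ _) hv.2).2
          exact get_inj (Prod.ext huv (e1.trans e2.symm))
      have c1 : (Finset.univ.filter (fun u => ((vl a b B).get u).2.1 = 1 ∧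
            ((vl a b B).get u).1 = i / DD a b B)).card ≤ 1 := by
        rw [Finset.card_le_one]
        intro u hu v hv
        rw [Finset.mem_filter] at hu hv
        have e1 := (kind_one (List.get_mem _ _) hu.2.1).2
        have e2 := (kind_one (List.get_mem _ _) hv.2.1).2
        exact get_inj (Prod.ext (hu.2.2.trans hv.2.2.symm) (e1.trans e2.symm))
      have c2 : (Finset.univ.filter (fun u => 2 ≤ ((vl a b B).get u).2.1 ∧
            (num a b B ((vl a b B).get u) = i ∨ num a b B ((vl a b B).get u) = i + 1))).card ≤ 2 := by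
        refine (Finset.card_le_card_of_injOn (t := {i, i + 1})
          (fun u => num a b B ((vl a b B).get u)) ?_ ?_).trans Finset.card_le_two
        · intro u hu
          rw [Finset.mem_coe, Finset.mem_filter] at hu
          rw [Finset.mem_coe, Finset.mem_insert, Finset.mem_singleton]
          exact hu.2.2
        · intro u hu v hv huv
          rw [Finset.mem_coe, Finset.mem_filter] at hu hv
          exact get_inj (num_inj (List.get_mem _ _) hu.2.1 (List.get_mem _ _) hv.2.1 huv)
      have c3 := Finset.card_union_le (Finset.univ.filter (fun u => ((vl a b B).get u).2.1 = 1 ∧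
            ((vl a b B).get u).1 = i / DD a b B))
          (Finset.univ.filter (fun u => 2 ≤ ((vl a b B).get u).2.1 ∧
            (num a b B ((vl a b B).get u) = i ∨ num a b B ((vl a b B).get u) = i + 1)))
      omega
  exact key

end

end Pool.Agent.Y605.BT
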